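import Mathlib
import Pool.Agent.Q76.HM.Stm

/-!
# Project HM (helper76), lemma job BMP: radial bumps span a dense subspace of `L ^ p`
-/

set_option autoImplicit false

namespace Pool.Agent.Q58.HM

open MeasureTheory Filter Topology Set Metric
open Pool.Agent.Q76.HM
open scoped ENNReal ContDiff

/-- the isometry mapping `x` to `(0, 0)` -/
noncomputable def am (x y : ℂ × ℝ) : ℂ × ℝ :=
  (y.1 - x.1 * (Real.exp x.2 : ℂ) * (Real.exp (-y.2) : ℂ), y.2 - x.2)

lemma am_cont : Continuous (fun q : (ℂ × ℝ) × (ℂ × ℝ) => am q.1 q.2) := by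
  unfold am; fun_prop

lemma am_cont' (x : ℂ × ℝ) : Continuous (am x) :=
  am_cont.comp (Continuous.prodMk_right x)

lemma am_mp (h : S_ISO) (x : ℂ × ℝ) : MeasurePreserving (am x) volume volume := by
  have h0 : MeasurePreserving (Prod.map (id : ℂ → ℂ) (fun s : ℝ => s + -x.2)) volume volume :=
    (MeasurePreserving.id volume).prod (measurePreserving_add_right (volume : Measure ℝ) (-x.2))
  have h1 := h0.comp (h.1 (x.1 * (Real.exp x.2 : ℂ)))
  have h2 : am x = Prod.map (id : ℂ → ℂ) (fun s : ℝ => s + -x.2) ∘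
      trf (x.1 * (Real.exp x.2 : ℂ)) := by
    funext y
    simp [am, trf, sub_eq_add_neg]
  rw [h2]
  exact h1

lemma ch_zero (w : ℂ × ℝ) :
    ch (0, 0) w = (Real.exp w.2 * (1 + ‖w.1‖ ^ 2) + Real.exp (-w.2)) / 2 := by
  unfold ch
  have hb := Real.exp_pos w.2
  simp only [mul_zero, zero_sub, norm_neg, norm_mul, Real.exp_zero, Real.exp_neg,
    Complex.norm_real, Real.norm_eq_abs, abs_of_pos hb]
  field_simp
  ring

lemma ch_am (x y : ℂ × ℝ) : ch x y = ch (0, 0) (am x y) := by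
  rw [ch_zero]
  unfold ch am
  have ha := Real.exp_pos x.2
  have hb := Real.exp_pos y.2
  simp only [neg_sub]
  rw [Real.exp_sub, Real.exp_sub, Real.exp_neg]
  have e1 : y.1 - x.1 * (Real.exp x.2 : ℂ) * (((Real.exp y.2)⁻¹ : ℝ) : ℂ) =
      (((Real.exp y.2)⁻¹ : ℝ) : ℂ) * ((Real.exp y.2 : ℂ) * y.1 - (Real.exp x.2 : ℂ) * x.1) := by
    have : (Real.exp y.2 : ℂ) ≠ 0 := by exact_mod_cast hb.ne'
    push_cast
    field_simp
  rw [e1, norm_mul, Complex.norm_real, Real.norm_eq_abs, abs_of_pos (by positivity),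
    norm_sub_rev ((Real.exp y.2 : ℂ) * y.1)]
  field_simp
  ring

lemma ch_cont (h : S_ISO) : Continuous (fun q : (ℂ × ℝ) × (ℂ × ℝ) => ch q.1 q.2) := by
  obtain ⟨-, -, -, -, -, -, -, -, -, -, -, h1, -⟩ := h
  exact h1

lemma ch_symm (h : S_ISO) (x y : ℂ × ℝ) : ch x y = ch y x := by
  obtain ⟨-, -, -, -, -, -, -, -, -, h1, -⟩ := h
  exact h1 x y

lemma ch_one_le (h : S_ISO) (x y : ℂ × ℝ) : 1 ≤ ch x y := by
  obtain ⟨-, -, -, -, -, -, -, -, h1, -⟩ := h
  exact h1 x y

lemma ch_eq_one (h : S_ISO) (x y : ℂ × ℝ) (hxy : ch x y = 1) : x = y := by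
  obtain ⟨-, -, -, -, -, -, -, -, -, -, h1, -⟩ := h
  exact h1 x y hxy

/-- the size of the points at bounded distance -/
noncomputable def bd (R : ℝ) : ℝ := Real.log 4 + R + 4 + R * 4

lemma ch_bound {R : ℝ} {x y : ℂ × ℝ} (hx : ‖x‖ ≤ R) (h : ch x y ≤ 2) : ‖y‖ ≤ bd R := by
  have hR : 0 ≤ R := (norm_nonneg x).trans hx
  have hx1 : ‖x.1‖ ≤ R := (norm_fst_le x).trans hx
  have hx2 : |x.2| ≤ R := (norm_snd_le x).trans hx
  have hl4 : 0 ≤ Real.log 4 := Real.log_nonneg (by norm_num)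
  rw [ch_am, ch_zero] at h
  set w := am x y with hw
  have hy2 : y.2 = w.2 + x.2 := by rw [hw, am]; ring
  have hy1 : y.1 = w.1 + x.1 * ((Real.exp (-w.2) : ℝ) : ℂ) := by
    have : (-w.2 : ℝ) = x.2 + (-y.2) := by rw [hw, am]; ring
    rw [this, Real.exp_add, hw, am]
    push_cast
    ring
  have hp := Real.exp_pos w.2
  have hn := Real.exp_pos (-w.2)
  have hpn : Real.exp w.2 * Real.exp (-w.2) = 1 := by rw [← Real.exp_add]; simp
  have h0 : 0 ≤ Real.exp w.2 * ‖w.1‖ ^ 2 := by positivity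
  have h1 : Real.exp w.2 ≤ 4 := by nlinarith
  have h2 : Real.exp (-w.2) ≤ 4 := by nlinarith
  have h3 : Real.exp w.2 * ‖w.1‖ ^ 2 ≤ 4 := by nlinarith
  have h4 : ‖w.1‖ ^ 2 ≤ 4 ^ 2 := by
    have : ‖w.1‖ ^ 2 = (Real.exp w.2 * ‖w.1‖ ^ 2) * Real.exp (-w.2) := by
      calc ‖w.1‖ ^ 2 = (Real.exp w.2 * Real.exp (-w.2)) * ‖w.1‖ ^ 2 := by rw [hpn, one_mul]
        _ = _ := by ring
    rw [this]
    calc Real.exp w.2 * ‖w.1‖ ^ 2 * Real.exp (-w.2) ≤ 4 * 4 := mul_le_mul h3 h2 hn.le (by norm_num)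
      _ = 4 ^ 2 := by norm_num
  have h5 : ‖w.1‖ ≤ 4 := by
    nlinarith [norm_nonneg w.1]
  have h6 : w.2 ≤ Real.log 4 := (Real.le_log_iff_exp_le (by norm_num)).2 h1
  have h7 : -w.2 ≤ Real.log 4 := (Real.le_log_iff_exp_le (by norm_num)).2 h2
  have h8 : |w.2| ≤ Real.log 4 := abs_le.2 ⟨by linarith, h6⟩
  unfold bd
  rw [Prod.norm_def, max_le_iff]
  constructor
  · rw [hy1]
    calc ‖w.1 + x.1 * ((Real.exp (-w.2) : ℝ) : ℂ)‖ ≤ ‖w.1‖ + ‖x.1 * ((Real.exp (-w.2) : ℝ) : ℂ)‖ :=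
        norm_add_le _ _
      _ ≤ 4 + R * 4 := by
        refine add_le_add h5 ?_
        rw [norm_mul, Complex.norm_real, Real.norm_eq_abs, abs_of_pos hn]
        exact mul_le_mul hx1 h2 hn.le hR
      _ ≤ _ := by linarith
  · rw [hy2, Real.norm_eq_abs]
    calc |w.2 + x.2| ≤ |w.2| + |x.2| := abs_add_le _ _
      _ ≤ Real.log 4 + R := add_le_add h8 hx2
      _ ≤ _ := by nlinarith

section bump

variable (h : S_ISO) (φ : ℝ → ℝ) (hφ : Continuous φ) (h2 : ∀ c, 2 ≤ c → φ c = 0)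

include h hφ in
lemma phi_cont (x : ℂ × ℝ) : Continuous (fun y => φ (ch x y)) := by
  have h1 : Continuous (fun y : ℂ × ℝ => ((x, y) : (ℂ × ℝ) × (ℂ × ℝ))) := by fun_prop
  have h3 := (ch_cont h).comp h1
  exact hφ.comp h3

include h2 in
lemma phi_supp (x : ℂ × ℝ) : HasCompactSupport (fun y => φ (ch x y)) := by
  refine HasCompactSupport.intro (isCompact_closedBall (0 : ℂ × ℝ) (bd ‖x‖)) fun y hy => ?_
  apply h2
  by_contra hc
  push Not at hc
  exact hy (by rw [mem_closedBall_zero_iff]; exact ch_bound le_rfl hc.le)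

include h hφ h2 in
lemma phi_int (x : ℂ × ℝ) : Integrable (fun y => φ (ch x y)) :=
  (phi_cont h φ hφ x).integrable_of_hasCompactSupport (phi_supp φ h2 x)

include h hφ in
lemma phi_mass (x : ℂ × ℝ) : ∫ y, φ (ch x y) = ∫ w, φ (ch (0, 0) w) := by
  simp_rw [ch_am x]
  have h1 := (am_mp h x)
  have h3 := integral_map (μ := (volume : Measure (ℂ × ℝ))) h1.measurable.aemeasurable
    (f := fun w => φ (ch (0, 0) w)) (by
      rw [h1.map_eq]
      exact (phi_cont h φ hφ (0, 0)).aestronglyMeasurable)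
  rw [h1.map_eq] at h3
  exact h3.symm

variable {p : ℝ≥0∞} [Fact (1 ≤ p)] (hp : p ≠ ⊤)

omit [Fact (1 ≤ p)] in
include h hφ h2 in
lemma u0_mem : MemLp (fun w => (φ (ch (0, 0) w) : ℂ)) p (volume : Measure (ℂ × ℝ)) := by
  apply Continuous.memLp_of_hasCompactSupport
  · exact Complex.continuous_ofReal.comp (phi_cont h φ hφ (0, 0))
  · exact (phi_supp φ h2 (0, 0)).comp_left (g := fun r : ℝ => (r : ℂ)) (by simp)

/-- the translated bump as an element of `L ^ p` -/
noncomputable def bx (x : ℂ × ℝ) : Lp ℂ p (volume : Measure (ℂ × ℝ)) :=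
  Lp.compMeasurePreserving (am x) (am_mp h x) (MemLp.toLp _ (u0_mem h φ hφ h2 (p := p)))

lemma bx_coe (x : ℂ × ℝ) : ⇑(bx h φ hφ h2 (p := p) x) =ᵐ[volume] fun y => (φ (ch x y) : ℂ) := by
  unfold bx
  rw [Lp.toLp_compMeasurePreserving]
  refine (MemLp.coeFn_toLp _).trans (ae_of_all _ fun y => ?_)
  simp only [Function.comp]
  rw [← ch_am]

include hp in
lemma bx_cont : Continuous (bx h φ hφ h2 (p := p)) := by
  unfold bx
  exact Continuous.compMeasurePreservingLp (X := ℂ × ℝ) (Y := ℂ × ℝ)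
    (f := fun _ => MemLp.toLp _ (u0_mem h φ hφ h2 (p := p)))
    (g := fun x => ContinuousMap.curry ⟨fun q : (ℂ × ℝ) × (ℂ × ℝ) => am q.1 q.2, am_cont⟩ x)
    continuous_const (ContinuousMap.continuous _) (fun x => am_mp h x) hp

variable (f : ℂ × ℝ → ℂ) (hf : Continuous f) (hfc : HasCompactSupport f)

/-- the superposition of the bumps in `L ^ p` -/
noncomputable def jx : Lp ℂ p (volume : Measure (ℂ × ℝ)) :=
  ∫ x, f x • bx h φ hφ h2 (p := p) x

include hf hfc hp in
lemma jx_int : Integrable (fun x => f x • bx h φ hφ h2 (p := p) x) := by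
  apply Continuous.integrable_of_hasCompactSupport
  · exact hf.smul (bx_cont h φ hφ h2 hp)
  · exact hfc.smul_right

include hf hfc hp in
lemma jx_mem (V : Submodule ℂ (Lp ℂ p (volume : Measure (ℂ × ℝ))))
    (hV : IsClosed (V : Set (Lp ℂ p (volume : Measure (ℂ × ℝ)))))
    (hb : ∀ x, bx h φ hφ h2 (p := p) x ∈ V) : jx h φ hφ h2 (p := p) f ∈ V := by
  have hc : CompleteSpace V := hV.completeSpace_coe
  let g : ℂ × ℝ → V := fun x => f x • ⟨bx h φ hφ h2 (p := p) x, hb x⟩
  have hg : Continuous g := hf.smul ((bx_cont h φ hφ h2 hp).subtype_mk _)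
  have hgc : HasCompactSupport g := hfc.smul_right
  have hgi : Integrable g := hg.integrable_of_hasCompactSupport hgc
  have h3 := V.subtypeL.integral_comp_comm hgi
  have h4 : jx h φ hφ h2 (p := p) f = V.subtypeL (∫ x, g x) := by
    rw [← h3]
    rfl
  rw [h4]
  exact (∫ x, g x).2

include h hφ h2 hf hfc in
lemma ker_int : Integrable (fun q : (ℂ × ℝ) × (ℂ × ℝ) => f q.1 * (φ (ch q.1 q.2) : ℂ))
    (volume.prod volume) := by
  apply Continuous.integrable_of_hasCompactSupport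
  · exact (hf.comp continuous_fst).mul
      (Complex.continuous_ofReal.comp (hφ.comp (ch_cont h)))
  · obtain ⟨R, hR⟩ := (hfc.isCompact.isBounded).subset_closedBall (0 : ℂ × ℝ)
    refine HasCompactSupport.intro ((isCompact_closedBall (0 : ℂ × ℝ) R).prod
      (isCompact_closedBall (0 : ℂ × ℝ) (bd R))) fun q hq => ?_
    by_cases h3 : f q.1 = 0
    · rw [h3, zero_mul]
    by_cases h4 : ch q.1 q.2 ≤ 2
    · exfalso
      apply hq
      have h5 : q.1 ∈ closedBall (0 : ℂ × ℝ) R := hR (subset_tsupport _ h3)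
      refine ⟨h5, ?_⟩
      rw [mem_closedBall_zero_iff] at h5 ⊢
      exact ch_bound h5 h4
    · rw [h2 _ (by linarith)]
      simp

include hf hfc hp in
lemma jx_coe :
    ⇑(jx h φ hφ h2 (p := p) f) =ᵐ[volume] fun y => ∫ x, f x * (φ (ch x y) : ℂ) := by
  have hk := ker_int h φ hφ h2 f hf hfc
  refine ae_eq_of_integral_contDiff_smul_eq ((Lp.memLp _).locallyIntegrable Fact.out)
    (hk.integral_prod_right).locallyIntegrable fun g hg hgc => ?_
  have : Fact (1 ≤ ENNReal.conjExponent p) := ⟨le_self_add⟩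
  have hgm : MemLp (fun y => (g y : ℂ)) (ENNReal.conjExponent p) (volume : Measure (ℂ × ℝ)) := by
    apply Continuous.memLp_of_hasCompactSupport
    · exact Complex.continuous_ofReal.comp hg.continuous
    · exact hgc.comp_left (g := fun r : ℝ => (r : ℂ)) (by simp)
  let Λ : Lp ℂ p (volume : Measure (ℂ × ℝ)) →L[ℂ] ℂ :=
    (((ContinuousLinearMap.mul ℂ ℂ).lpPairing volume p (ENNReal.conjExponent p)).flip
      (hgm.toLp _))
  have hΛ : ∀ u : Lp ℂ p (volume : Measure (ℂ × ℝ)), Λ u = ∫ y, u y * (g y : ℂ) := by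
    intro u
    show ((ContinuousLinearMap.mul ℂ ℂ).lpPairing volume p (ENNReal.conjExponent p)) u
      (hgm.toLp _) = _
    rw [ContinuousLinearMap.lpPairing_eq_integral]
    apply integral_congr_ae
    filter_upwards [hgm.coeFn_toLp] with y hy
    rw [hy]
    rfl
  have e1 : ∫ y, g y • (jx h φ hφ h2 (p := p) f) y = Λ (jx h φ hφ h2 (p := p) f) := by
    rw [hΛ]
    refine integral_congr_ae (ae_of_all _ fun y => ?_)
    simp only [Complex.real_smul]
    rw [mul_comm]
  have e2 : Λ (jx h φ hφ h2 (p := p) f) = ∫ x, Λ (f x • bx h φ hφ h2 (p := p) x) :=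
    (Λ.integral_comp_comm (jx_int h φ hφ h2 hp f hf hfc)).symm
  have e3 : ∀ x, Λ (f x • bx h φ hφ h2 (p := p) x) =
      ∫ y, (f x * (φ (ch x y) : ℂ)) * (g y : ℂ) := by
    intro x
    rw [hΛ]
    apply integral_congr_ae
    filter_upwards [Lp.coeFn_smul (f x) (bx h φ hφ h2 (p := p) x),
      bx_coe h φ hφ h2 (p := p) x] with y h3 h4
    rw [h3, Pi.smul_apply, h4, smul_eq_mul]
  rw [e1, e2]
  simp_rw [e3]
  rw [integral_integral_swap]
  · refine integral_congr_ae (ae_of_all _ fun y => ?_)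
    simp only [Complex.real_smul]
    rw [integral_mul_const, mul_comm]
  · obtain ⟨C, hC⟩ := hgc.exists_bound_of_continuous hg.continuous
    have h3 : Integrable (fun q : (ℂ × ℝ) × (ℂ × ℝ) => (g q.2 : ℂ) * (f q.1 * (φ (ch q.1 q.2) : ℂ)))
        (volume.prod volume) := by
      refine hk.bdd_mul (c := C) ?_ (ae_of_all _ fun q => ?_)
      · exact (Complex.continuous_ofReal.comp
          (hg.continuous.comp continuous_snd)).aestronglyMeasurable
      · rw [Complex.norm_real]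
        exact hC q.2
    refine h3.congr (ae_of_all _ fun q => ?_)
    simp only [Function.uncurry]
    rw [mul_comm]

end bump

lemma unif (h : S_ISO) (f : ℂ × ℝ → ℂ) (hf : Continuous f) {R : ℝ}
    (hR : tsupport f ⊆ closedBall (0 : ℂ × ℝ) R) {δ : ℝ} (hδ : 0 < δ) :
    ∃ e : ℝ, 0 < e ∧ e ≤ 1 ∧ ∀ x y, ch x y < 1 + e → ‖f x - f y‖ ≤ δ := by
  set K : Set (ℂ × ℝ) := closedBall (0 : ℂ × ℝ) (max R (bd R)) with hK
  have hKc : IsCompact K := isCompact_closedBall _ _
  set S : Set ((ℂ × ℝ) × (ℂ × ℝ)) := (K ×ˢ K) ∩ {q | δ ≤ ‖f q.1 - f q.2‖} with hS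
  have hSc : IsCompact S := by
    refine (hKc.prod hKc).inter_right ?_
    exact isClosed_le continuous_const
      ((hf.comp continuous_fst).sub (hf.comp continuous_snd)).norm
  have hc0 : ∃ c0 : ℝ, 1 < c0 ∧ ∀ q ∈ S, c0 ≤ ch q.1 q.2 := by
    rcases S.eq_empty_or_nonempty with h0 | h0
    · exact ⟨2, by norm_num, fun q hq => by rw [h0] at hq; exact absurd hq (by simp)⟩
    · obtain ⟨q0, hq0, hm⟩ := hSc.exists_isMinOn h0 (ch_cont h).continuousOn
      refine ⟨ch q0.1 q0.2, ?_, fun q hq => hm hq⟩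
      refine lt_of_le_of_ne (ch_one_le h _ _) fun h1 => ?_
      have h3 := ch_eq_one h _ _ h1.symm
      have h4 : δ ≤ ‖f q0.1 - f q0.2‖ := hq0.2
      rw [h3, sub_self, norm_zero] at h4
      linarith
  obtain ⟨c0, hc1, hc⟩ := hc0
  refine ⟨min 1 (c0 - 1), lt_min one_pos (by linarith), min_le_left _ _, fun x y hxy => ?_⟩
  by_contra hcon
  push Not at hcon
  have h2 : ch x y ≤ 2 := by
    have := min_le_left 1 (c0 - 1)
    linarith
  have h3 : ch x y < c0 := by
    have := min_le_right 1 (c0 - 1)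
    linarith
  have hmem : x ∈ K ∧ y ∈ K := by
    by_cases hx : f x = 0
    · have hy : f y ≠ 0 := by
        intro hy
        rw [hx, hy, sub_self, norm_zero] at hcon
        linarith
      have h5 : ‖y‖ ≤ R := by
        rw [← mem_closedBall_zero_iff]; exact hR (subset_tsupport _ hy)
      have h6 : ‖x‖ ≤ bd R := ch_bound h5 (by rw [ch_symm h]; exact h2)
      rw [hK, mem_closedBall_zero_iff, mem_closedBall_zero_iff]
      exact ⟨h6.trans (le_max_right _ _), h5.trans (le_max_left _ _)⟩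
    · have h5 : ‖x‖ ≤ R := by
        rw [← mem_closedBall_zero_iff]; exact hR (subset_tsupport _ hx)
      have h6 : ‖y‖ ≤ bd R := ch_bound h5 h2
      rw [hK, mem_closedBall_zero_iff, mem_closedBall_zero_iff]
      exact ⟨h5.trans (le_max_left _ _), h6.trans (le_max_right _ _)⟩
  have h7 := hc (x, y) ⟨⟨hmem.1, hmem.2⟩, hcon.le⟩
  simp only at h7
  linarith

lemma approx (h : S_ISO) (f : ℂ × ℝ → ℂ) (hf : Continuous f) {R : ℝ}
    (hR : tsupport f ⊆ closedBall (0 : ℂ × ℝ) R) {δ : ℝ} (hδ : 0 < δ) :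
    ∃ φ : ℝ → ℝ, ContDiff ℝ ∞ φ ∧ HasCompactSupport φ ∧ (∀ c, 2 ≤ c → φ c = 0) ∧
      ∃ m : ℝ, 0 < m ∧ ∀ y, ‖f y - (m : ℂ)⁻¹ * ∫ x, f x * (φ (ch x y) : ℂ)‖ ≤
        (closedBall (0 : ℂ × ℝ) (max R (bd R))).indicator (fun _ => δ) y := by
  have hfc : HasCompactSupport f := by
    refine (isCompact_closedBall (0 : ℂ × ℝ) R).of_isClosed_subset (isClosed_tsupport f) hR
  obtain ⟨e, he, he1, hu⟩ := unif h f hf hR hδ
  let B : ContDiffBump (1 : ℝ) := ⟨e / 2, e, by positivity, by linarith⟩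
  have hB : ∀ c : ℝ, 1 + e ≤ c → B c = 0 := by
    intro c hc
    apply B.zero_of_le_dist
    rw [Real.dist_eq, abs_of_nonneg (by linarith)]
    show e ≤ c - 1
    linarith
  have hB2 : ∀ c : ℝ, 2 ≤ c → B c = 0 := fun c hc => hB c (by linarith)
  have hBc : Continuous (fun c : ℝ => B c) := B.continuous
  have hm : 0 < ∫ w, B (ch (0, 0) w) := by
    refine (phi_cont h B hBc (0, 0)).integral_pos_of_hasCompactSupport_nonneg_nonzero
      (phi_supp B hB2 (0, 0)) (fun w => B.nonneg) (x := (0, 0)) ?_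
    have h1 : ch (0, 0) ((0, 0) : ℂ × ℝ) = 1 := by
      rw [ch_zero]; simp
    simp only [h1]
    have : (0 : ℝ) < B 1 := B.pos_of_mem_ball (mem_ball_self he)
    exact this.ne'
  refine ⟨B, B.contDiff, B.hasCompactSupport, hB2, ∫ w, B (ch (0, 0) w), hm, fun y => ?_⟩
  set m := ∫ w, B (ch (0, 0) w) with hmdef
  have hm' : (m : ℂ) ≠ 0 := by exact_mod_cast hm.ne'
  have hmy : ∫ x, B (ch x y) = m := by
    simp_rw [ch_symm h _ y]
    exact phi_mass h B hBc y
  have hiy : Integrable (fun x => B (ch x y)) := by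
    simp_rw [ch_symm h _ y]
    exact phi_int h B hBc hB2 y
  by_cases hy : y ∈ closedBall (0 : ℂ × ℝ) (max R (bd R))
  · rw [indicator_of_mem hy]
    obtain ⟨C, hC⟩ := hfc.exists_bound_of_continuous hf
    have i1 : Integrable (fun x => f x * (B (ch x y) : ℂ)) :=
      hiy.ofReal.bdd_mul (c := C) hf.aestronglyMeasurable (ae_of_all _ hC)
    have i2 : Integrable (fun x => f y * (B (ch x y) : ℂ)) := hiy.ofReal.const_mul _
    have e1 : f y * (m : ℂ) = ∫ x, f y * (B (ch x y) : ℂ) := by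
      rw [integral_const_mul, ← hmy]
      congr 1
      exact integral_ofReal.symm
    have e2 : f y - (m : ℂ)⁻¹ * ∫ x, f x * (B (ch x y) : ℂ) =
        (m : ℂ)⁻¹ * ∫ x, (f y * (B (ch x y) : ℂ) - f x * (B (ch x y) : ℂ)) := by
      rw [integral_sub i2 i1, ← e1]
      field_simp
    rw [e2, norm_mul, norm_inv, Complex.norm_real, Real.norm_eq_abs, abs_of_pos hm,
      inv_mul_le_iff₀ hm]
    calc ‖∫ x, (f y * (B (ch x y) : ℂ) - f x * (B (ch x y) : ℂ))‖ ≤ ∫ x, δ * B (ch x y) := by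
          apply norm_integral_le_of_norm_le (hiy.const_mul δ)
          refine ae_of_all _ fun x => ?_
          rw [← sub_mul, norm_mul, Complex.norm_real, Real.norm_eq_abs, abs_of_nonneg B.nonneg]
          by_cases hc : ch x y < 1 + e
          · have h5 := hu x y hc
            rw [norm_sub_rev] at h5
            exact mul_le_mul_of_nonneg_right h5 B.nonneg
          · rw [hB _ (not_lt.1 hc)]
            simp
      _ = m * δ := by rw [integral_const_mul, hmy, mul_comm]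
  · rw [indicator_of_notMem hy]
    rw [mem_closedBall_zero_iff, not_le, max_lt_iff] at hy
    have h1 : f y = 0 := by
      by_contra h0
      have := hR (subset_tsupport _ h0)
      rw [mem_closedBall_zero_iff] at this
      linarith [hy.1]
    have h3 : ∀ x, f x * (B (ch x y) : ℂ) = 0 := by
      intro x
      by_cases h0 : f x = 0
      · rw [h0, zero_mul]
      · have h4 := hR (subset_tsupport _ h0)
        rw [mem_closedBall_zero_iff] at h4
        have h5 : ¬ ch x y ≤ 2 := fun h5 => absurd (ch_bound h4 h5) (not_le.2 hy.2)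
        rw [hB2 _ (not_le.1 h5).le]
        simp
    simp_rw [h3, h1]
    simp

/-- lemma job BMP -/
theorem bmp (h : S_ISO) : S_BMP := by
  intro p hp1 hfact V hV hb
  have hp : ENNReal.ofReal p ≠ ⊤ := ENNReal.ofReal_ne_top
  rw [eq_top_iff]
  intro v _
  have key : v ∈ (V : Set (Lp ℂ (ENNReal.ofReal p) (volume : Measure (ℂ × ℝ)))) := by
    rw [← hV.closure_eq, Metric.mem_closure_iff]
    intro ε hε
    obtain ⟨g, hgc, hg1, hg, hgm⟩ := (Lp.memLp v).exists_hasCompactSupport_eLpNorm_sub_le hp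
      (ε := ENNReal.ofReal (ε / 4)) (by simp; positivity)
    obtain ⟨R, hR⟩ := (hgc.isCompact.isBounded).subset_closedBall (0 : ℂ × ℝ)
    set K : Set (ℂ × ℝ) := closedBall (0 : ℂ × ℝ) (max R (bd R)) with hK
    set c : ℝ := ((volume K) ^ (1 / (ENNReal.ofReal p).toReal)).toReal with hc
    have hKfin : (volume K) ^ (1 / (ENNReal.ofReal p).toReal) ≠ ⊤ := by
      apply ENNReal.rpow_ne_top_of_nonneg (by positivity)
      exact (isCompact_closedBall _ _).measure_lt_top.ne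
    have hc0 : 0 ≤ c := ENNReal.toReal_nonneg
    have hδ : 0 < ε / 4 / (c + 1) := by positivity
    obtain ⟨φ, hφ, hφc, h2, m, hm, hest⟩ := approx h g hg hR hδ
    have hbx : ∀ x, bx h φ hφ.continuous h2 (p := ENNReal.ofReal p) x ∈ V := fun x =>
      hb x φ hφ hφc _ (bx_coe h φ hφ.continuous h2 x)
    have hj := jx_mem h φ hφ.continuous h2 hp g hg hgc V hV hbx
    have hjc := jx_coe h φ hφ.continuous h2 hp g hg hgc
    set J : Lp ℂ (ENNReal.ofReal p) (volume : Measure (ℂ × ℝ)) :=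
      jx h φ hφ.continuous h2 (p := ENNReal.ofReal p) g with hJ
    refine ⟨(m : ℂ)⁻¹ • J, V.smul_mem _ hj, ?_⟩
    rw [Lp.dist_def]
    have hE1 : eLpNorm (g - ⇑((m : ℂ)⁻¹ • J)) (ENNReal.ofReal p) volume ≤
        ENNReal.ofReal (ε / 4) := by
      calc eLpNorm (g - ⇑((m : ℂ)⁻¹ • J)) (ENNReal.ofReal p) volume
          ≤ eLpNorm (K.indicator (fun _ => ε / 4 / (c + 1))) (ENNReal.ofReal p) volume := by
            apply eLpNorm_mono_ae_real
            filter_upwards [hjc, Lp.coeFn_smul ((m : ℂ)⁻¹) J]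
              with y h3 h4
            rw [Pi.sub_apply, h4, Pi.smul_apply, h3, smul_eq_mul]
            exact hest y
        _ ≤ ‖ε / 4 / (c + 1)‖ₑ * (volume K) ^ (1 / (ENNReal.ofReal p).toReal) :=
            eLpNorm_indicator_const_le _ _
        _ = ENNReal.ofReal (ε / 4 / (c + 1) * c) := by
            rw [ENNReal.ofReal_mul hδ.le, Real.enorm_eq_ofReal hδ.le, hc,
              ENNReal.ofReal_toReal hKfin]
        _ ≤ ENNReal.ofReal (ε / 4) := by
            apply ENNReal.ofReal_le_ofReal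
            rw [div_mul_eq_mul_div, div_le_iff₀ (by positivity)]
            nlinarith
    have hE2 : eLpNorm (⇑v - ⇑((m : ℂ)⁻¹ • J)) (ENNReal.ofReal p) volume ≤
        ENNReal.ofReal (ε / 2) := by
      have e3 : ⇑v - ⇑((m : ℂ)⁻¹ • J) =
          (⇑v - g) + (g - ⇑((m : ℂ)⁻¹ • J)) := by
        simp
      rw [e3]
      refine (eLpNorm_add_le ((Lp.memLp v).1.sub hgm.1) (hgm.1.sub (Lp.memLp _).1)
        hfact.out).trans ?_
      have e4 : ENNReal.ofReal (ε / 2) = ENNReal.ofReal (ε / 4) + ENNReal.ofReal (ε / 4) := by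
        rw [← ENNReal.ofReal_add (by positivity) (by positivity)]
        congr 1
        ring
      rw [e4]
      exact add_le_add hg1 hE1
    calc _ ≤ (ENNReal.ofReal (ε / 2)).toReal :=
          ENNReal.toReal_mono ENNReal.ofReal_ne_top hE2
      _ = ε / 2 := ENNReal.toReal_ofReal (by positivity)
      _ < ε := by linarith
  exact key

end Pool.Agent.Q58.HM
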