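import Mathlib
import Pool.Agent.Q76.HM.Stm

/-!
# Project HM (helper76), lemma job FTK: the Fourier transform of `x / sinh x` in the strip
(convolution square of `1 / cosh`)
-/

set_option autoImplicit false

namespace Pool.Agent.Q58.HM

open MeasureTheory Filter Topology Set Complex

/-- the logistic map -/
noncomputable def sg (x : ℝ) : ℝ := Real.exp x / (2 * Real.cosh x)

lemma two_cosh (x : ℝ) : 2 * Real.cosh x = Real.exp x + Real.exp (-x) := by
  rw [Real.cosh_eq]; ring

lemma one_sub_sg (x : ℝ) : 1 - sg x = Real.exp (-x) / (2 * Real.cosh x) := by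
  have h : (0 : ℝ) < 2 * Real.cosh x := by have := Real.cosh_pos x; positivity
  unfold sg
  rw [eq_div_iff h.ne', sub_mul, div_mul_cancel₀ _ h.ne', two_cosh]
  ring

lemma sg_pos (x : ℝ) : 0 < sg x := by
  unfold sg; have := Real.cosh_pos x; positivity

lemma one_sub_sg_pos (x : ℝ) : 0 < 1 - sg x := by
  rw [one_sub_sg]; have := Real.cosh_pos x; positivity

lemma sg_hasDerivAt (x : ℝ) : HasDerivAt sg (2 * sg x * (1 - sg x)) x := by
  have h : (0 : ℝ) < 2 * Real.cosh x := by have := Real.cosh_pos x; positivity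
  have h1 : HasDerivAt sg ((Real.exp x * (2 * Real.cosh x) - Real.exp x * (2 * Real.sinh x)) /
      (2 * Real.cosh x) ^ 2) x :=
    (Real.hasDerivAt_exp x).div ((Real.hasDerivAt_cosh x).const_mul 2) h.ne'
  convert h1 using 1
  rw [one_sub_sg, sg]
  field_simp
  rw [← Real.cosh_sub_sinh]

lemma sg_strictMono : StrictMono sg := by
  apply strictMono_of_deriv_pos
  intro x
  rw [(sg_hasDerivAt x).deriv]
  have := sg_pos x
  have := one_sub_sg_pos x
  positivity

lemma sg_image : sg '' univ = Ioo 0 1 := by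
  ext t
  constructor
  · rintro ⟨x, -, rfl⟩
    exact ⟨sg_pos x, by linarith [one_sub_sg_pos x]⟩
  · rintro ⟨h0, h1⟩
    refine ⟨Real.log (t / (1 - t)) / 2, mem_univ _, ?_⟩
    have h2 : 0 < 1 - t := by linarith
    set y := Real.log (t / (1 - t)) / 2 with hy
    have h3 : Real.exp y * Real.exp y = t / (1 - t) := by
      rw [← Real.exp_add, hy, add_halves, Real.exp_log (by positivity)]
    unfold sg
    rw [two_cosh, Real.exp_neg]
    have h4 := Real.exp_pos y
    rw [div_eq_iff (by positivity)]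
    field_simp
    have h5 : Real.exp y ^ 2 * (1 - t) = t := by
      rw [pow_two, h3, div_mul_cancel₀ _ h2.ne']
    linarith

lemma key (z : ℂ) (x : ℝ) :
    |2 * sg x * (1 - sg x)| • (((sg x : ℝ) : ℂ) ^ ((1 + z) / 2 - 1) *
      (1 - ((sg x : ℝ) : ℂ)) ^ ((1 - z) / 2 - 1)) = exp (z * x) / cosh x := by
  have hc : (0 : ℝ) < 2 * Real.cosh x := by have := Real.cosh_pos x; positivity
  have h1 := sg_pos x
  have h2 := one_sub_sg_pos x
  have ha : Real.log (sg x) = x - Real.log (2 * Real.cosh x) := by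
    rw [sg, Real.log_div (Real.exp_pos x).ne' hc.ne', Real.log_exp]
  have hb : Real.log (1 - sg x) = -x - Real.log (2 * Real.cosh x) := by
    rw [one_sub_sg, Real.log_div (Real.exp_pos _).ne' hc.ne', Real.log_exp]
  have e1 : ((sg x : ℝ) : ℂ) = exp ((x : ℂ) - (Real.log (2 * Real.cosh x) : ℝ)) := by
    rw [← ofReal_sub, ← ha, ← ofReal_exp, Real.exp_log h1]
  have e2 : (1 - ((sg x : ℝ) : ℂ)) = exp (-(x : ℂ) - (Real.log (2 * Real.cosh x) : ℝ)) := by
    rw [← ofReal_neg, ← ofReal_sub, ← hb, ← ofReal_exp, Real.exp_log h2]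
    push_cast
    ring
  have e3 : exp (-((Real.log (2 * Real.cosh x) : ℝ) : ℂ)) = (2 * cosh (x : ℂ))⁻¹ := by
    rw [exp_neg, ← ofReal_exp, Real.exp_log hc]
    push_cast
    rfl
  rw [abs_of_pos (by positivity), real_smul]
  push_cast
  rw [e2]
  have p1 : ((sg x : ℝ) : ℂ) ^ ((1 + z) / 2 - 1) =
      exp (((x : ℂ) - (Real.log (2 * Real.cosh x) : ℝ)) * ((1 + z) / 2 - 1)) := by
    rw [cpow_def_of_ne_zero (by exact_mod_cast h1.ne'), ← ofReal_log h1.le, ha]
    push_cast
    rfl
  have p2 : (exp (-(x : ℂ) - (Real.log (2 * Real.cosh x) : ℝ))) ^ ((1 - z) / 2 - 1) =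
      exp ((-(x : ℂ) - (Real.log (2 * Real.cosh x) : ℝ)) * ((1 - z) / 2 - 1)) := by
    rw [← e2, cpow_def_of_ne_zero]
    · have : (1 - ((sg x : ℝ) : ℂ)) = ((1 - sg x : ℝ) : ℂ) := by push_cast; rfl
      rw [this, ← ofReal_log h2.le, hb]
      push_cast
      rfl
    · have : (1 - ((sg x : ℝ) : ℂ)) = ((1 - sg x : ℝ) : ℂ) := by push_cast; rfl
      rw [this]
      exact_mod_cast h2.ne'
  rw [p1, p2, e1]
  have : (2 : ℂ) * exp ((x : ℂ) - (Real.log (2 * Real.cosh x) : ℝ)) *
      exp (-(x : ℂ) - (Real.log (2 * Real.cosh x) : ℝ)) *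
      (exp (((x : ℂ) - (Real.log (2 * Real.cosh x) : ℝ)) * ((1 + z) / 2 - 1)) *
      exp ((-(x : ℂ) - (Real.log (2 * Real.cosh x) : ℝ)) * ((1 - z) / 2 - 1))) =
      2 * (exp (z * x) * exp (-((Real.log (2 * Real.cosh x) : ℝ) : ℂ))) := by
    rw [mul_assoc (2 : ℂ), mul_assoc (2 : ℂ), ← exp_add, ← exp_add, ← exp_add, ← exp_add]
    congr 2
    ring
  rw [this, e3, mul_inv]
  ring

lemma cos_ne (z : ℂ) (h : |z.re| < 1) : cos (Real.pi * z / 2) ≠ 0 := by
  rw [abs_lt] at h
  have h1 : 0 < ((1 + z) / 2).re := by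
    have : ((1 + z) / 2).re = (1 + z.re) / 2 := by simp
    rw [this]; linarith
  have h2 : 0 < (1 - (1 + z) / 2).re := by
    have : (1 - (1 + z) / 2).re = (1 - z.re) / 2 := by simp; ring
    rw [this]; linarith
  have h3 := Gamma_mul_Gamma_one_sub ((1 + z) / 2)
  have h4 : sin (Real.pi * ((1 + z) / 2)) = cos (Real.pi * z / 2) := by
    rw [← cos_pi_div_two_sub, ← cos_neg]
    congr 1
    ring
  intro h5
  rw [h4, h5, div_zero, mul_eq_zero] at h3
  rcases h3 with h3 | h3
  · exact Gamma_ne_zero_of_re_pos h1 h3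
  · exact Gamma_ne_zero_of_re_pos h2 h3

lemma beta (z : ℂ) (h : |z.re| < 1) :
    Integrable (fun x : ℝ => exp (z * x) / cosh x) ∧
      ∫ x : ℝ, exp (z * x) / cosh x = Real.pi / cos (Real.pi * z / 2) := by
  have h' := abs_lt.1 h
  have h1 : 0 < ((1 + z) / 2).re := by
    have : ((1 + z) / 2).re = (1 + z.re) / 2 := by simp
    rw [this]; linarith
  have h2 : 0 < ((1 - z) / 2).re := by
    have : ((1 - z) / 2).re = (1 - z.re) / 2 := by simp
    rw [this]; linarith
  have hI := betaIntegral_convergent h1 h2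
  rw [intervalIntegrable_iff_integrableOn_Ioo_of_le zero_le_one, ← sg_image,
    integrableOn_image_iff_integrableOn_abs_deriv_smul MeasurableSet.univ
      (fun x _ => (sg_hasDerivAt x).hasDerivWithinAt) sg_strictMono.injective.injOn] at hI
  simp only [key, integrableOn_univ] at hI
  refine ⟨hI, ?_⟩
  have hB : betaIntegral ((1 + z) / 2) ((1 - z) / 2) = ∫ x : ℝ, exp (z * x) / cosh x := by
    rw [betaIntegral, intervalIntegral.integral_of_le zero_le_one, integral_Ioc_eq_integral_Ioo,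
      ← sg_image, integral_image_eq_integral_abs_deriv_smul MeasurableSet.univ
      (fun x _ => (sg_hasDerivAt x).hasDerivWithinAt) sg_strictMono.injective.injOn]
    simp only [key, Measure.restrict_univ]
  rw [← hB]
  have h3 := Gamma_mul_Gamma_eq_betaIntegral h1 h2
  have h4 : (1 + z) / 2 + (1 - z) / 2 = 1 := by ring
  rw [h4, Gamma_one, one_mul] at h3
  rw [← h3]
  have h5 : (1 - z) / 2 = 1 - (1 + z) / 2 := by ring
  rw [h5, Gamma_mul_Gamma_one_sub]
  congr 1
  rw [← cos_pi_div_two_sub, ← cos_neg]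
  congr 1
  ring

lemma integrable_sech : Integrable (fun x : ℝ => (Real.cosh x)⁻¹) := by
  have h := (beta 0 (by simp)).1
  have h2 := h.re
  refine h2.congr (ae_of_all _ fun x => ?_)
  simp only [zero_mul, exp_zero, one_div]
  rw [← ofReal_cosh, ← ofReal_inv]
  exact ofReal_re _

lemma integrable_sech2 (x : ℝ) :
    Integrable (fun t : ℝ => (Real.cosh t * Real.cosh (x - t))⁻¹) := by
  have h := integrable_sech
  have h2 : Integrable (fun t : ℝ => (Real.cosh (x - t))⁻¹ * (Real.cosh t)⁻¹) := by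
    refine Integrable.bdd_mul (c := 1) h ?_ (ae_of_all _ fun t => ?_)
    · apply Measurable.aestronglyMeasurable
      fun_prop
    · rw [Real.norm_eq_abs, abs_of_pos (by have := Real.cosh_pos (x - t); positivity)]
      exact inv_le_one_of_one_le₀ (Real.one_le_cosh _)
  refine h2.congr (ae_of_all _ fun t => ?_)
  simp only
  rw [mul_inv, mul_comm]

lemma tendsto_log_cosh (x : ℝ) :
    Tendsto (fun t : ℝ => Real.log (Real.cosh t) - Real.log (Real.cosh (x - t))) atTop (𝓝 x) := by
  have h1 : ∀ t : ℝ, Real.log (Real.cosh t) - Real.log (Real.cosh (x - t)) =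
      Real.log ((1 + Real.exp (-(2 * t))) / (Real.exp (-x) + Real.exp x * Real.exp (-(2 * t)))) := by
    intro t
    rw [← Real.log_div (Real.cosh_pos t).ne' (Real.cosh_pos _).ne']
    congr 1
    have hc : (0 : ℝ) < Real.cosh (x - t) := Real.cosh_pos _
    rw [div_eq_div_iff hc.ne' (by positivity)]
    rw [Real.cosh_eq, Real.cosh_eq]
    have e1 : Real.exp (-(2 * t)) = Real.exp (-t) * Real.exp (-t) := by
      rw [← Real.exp_add]; ring_nf
    have e2 : Real.exp (x - t) = Real.exp x * Real.exp (-t) := by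
      rw [← Real.exp_add]; ring_nf
    have e3 : Real.exp (-(x - t)) = Real.exp (-x) * Real.exp t := by
      rw [← Real.exp_add]; ring_nf
    have e4 : Real.exp t * Real.exp (-t) = 1 := by rw [← Real.exp_add]; simp
    rw [e1, e2, e3]
    linear_combination ((Real.exp (-x) * 0 + Real.exp x * Real.exp (-t) / 2) -
      (Real.exp (-x) * Real.exp (-t)) / 2) * e4
  simp_rw [h1]
  have h2 : Tendsto (fun t : ℝ => Real.exp (-(2 * t))) atTop (𝓝 0) := by
    apply Real.tendsto_exp_neg_atTop_nhds_zero.comp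
    exact tendsto_id.const_mul_atTop (by norm_num : (0 : ℝ) < 2)
  have h3 : Tendsto (fun t : ℝ => (1 + Real.exp (-(2 * t))) /
      (Real.exp (-x) + Real.exp x * Real.exp (-(2 * t)))) atTop
      (𝓝 ((1 + 0) / (Real.exp (-x) + Real.exp x * 0))) := by
    apply Tendsto.div
    · exact h2.const_add 1
    · exact (h2.const_mul _).const_add _
    · have := Real.exp_pos (-x)
      simp
  have h4 : (1 + 0) / (Real.exp (-x) + Real.exp x * 0) = Real.exp x := by
    rw [mul_zero, add_zero, add_zero, Real.exp_neg, one_div, inv_inv]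
  rw [h4] at h3
  have h5 := h3.log (Real.exp_pos x).ne'
  rwa [Real.log_exp] at h5

lemma integral_sech2 (x : ℝ) (hx : x ≠ 0) :
    ∫ t : ℝ, (Real.cosh t * Real.cosh (x - t))⁻¹ = 2 * (x / Real.sinh x) := by
  have hs : Real.sinh x ≠ 0 := by
    rw [Ne, Real.sinh_eq_zero]; exact hx
  have hd : ∀ t : ℝ, HasDerivAt (fun t : ℝ => (Real.log (Real.cosh t) -
      Real.log (Real.cosh (x - t))) / Real.sinh x) ((Real.cosh t * Real.cosh (x - t))⁻¹) t := by
    intro t
    have hc := Real.cosh_pos t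
    have hc2 := Real.cosh_pos (x - t)
    have h1 : HasDerivAt (fun t : ℝ => Real.log (Real.cosh t)) (Real.sinh t / Real.cosh t) t :=
      (Real.hasDerivAt_cosh t).log hc.ne'
    have h2 : HasDerivAt (fun t : ℝ => x - t) (-1) t := by
      simpa using (hasDerivAt_id t).const_sub x
    have h3 : HasDerivAt (fun t : ℝ => Real.cosh (x - t)) (Real.sinh (x - t) * (-1)) t :=
      (Real.hasDerivAt_cosh (x - t)).comp t h2
    have h4 := h3.log hc2.ne'
    have h5 := (h1.sub h4).div_const (Real.sinh x)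
    have h6 : Real.sinh x = Real.sinh t * Real.cosh (x - t) + Real.cosh t * Real.sinh (x - t) := by
      rw [← Real.sinh_add]; congr 1; ring
    have h7 : Real.sinh t / Real.cosh t - Real.sinh (x - t) * -1 / Real.cosh (x - t) =
        Real.sinh x / (Real.cosh t * Real.cosh (x - t)) := by
      rw [h6]
      field_simp
      ring
    rw [h7, div_right_comm, div_self hs, one_div] at h5
    exact h5
  have hT := (tendsto_log_cosh x).div_const (Real.sinh x)
  have hB : Tendsto (fun t : ℝ => (Real.log (Real.cosh t) -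
      Real.log (Real.cosh (x - t))) / Real.sinh x) atBot (𝓝 (-x / Real.sinh x)) := by
    have h1 := (tendsto_log_cosh (-x)).comp tendsto_neg_atBot_atTop
    refine Tendsto.div_const ?_ _
    refine h1.congr fun t => ?_
    simp only [Function.comp]
    rw [Real.cosh_neg]
    congr 2
    rw [← Real.cosh_neg]
    congr 1
    ring
  rw [integral_of_hasDerivAt_of_tendsto hd (integrable_sech2 x) hB hT]
  ring

/-- the Fourier-Laplace transform of `x / sinh x` -/
lemma main (z : ℂ) (h : |z.re| < 1) :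
    Integrable (fun x : ℝ => (((dslope Real.sinh 0 x)⁻¹ : ℝ) : ℂ) * exp (z * x)) ∧
      ∫ x : ℝ, (((dslope Real.sinh 0 x)⁻¹ : ℝ) : ℂ) * exp (z * x) =
        (Real.pi / cos (Real.pi * z / 2)) ^ 2 / 2 := by
  obtain ⟨hi, hv⟩ := beta z h
  have hI := hi.integrable_convolution (ContinuousLinearMap.mul ℂ ℂ) hi
  have hV := integral_convolution (μ := volume) (ν := volume) (ContinuousLinearMap.mul ℂ ℂ) hi hi
  have hae : (convolution (fun x : ℝ => exp (z * x) / cosh x) (fun x : ℝ => exp (z * x) / cosh x)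
      (ContinuousLinearMap.mul ℂ ℂ) volume) =ᵐ[volume]
      fun x : ℝ => 2 * ((((dslope Real.sinh 0 x)⁻¹ : ℝ) : ℂ) * exp (z * x)) := by
    have h0 : ∀ᵐ x : ℝ, x ≠ 0 := by
      simp [ae_iff, measure_singleton]
    filter_upwards [h0] with x hx
    rw [convolution_def]
    simp only [ContinuousLinearMap.mul_apply']
    have e1 : ∀ t : ℝ, exp (z * t) / cosh t * (exp (z * ((x - t : ℝ) : ℂ)) / cosh ((x - t : ℝ) : ℂ)) =
        exp (z * x) * (((Real.cosh t * Real.cosh (x - t))⁻¹ : ℝ) : ℂ) := by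
      intro t
      have e2 : exp (z * x) = exp (z * t) * exp (z * ((x - t : ℝ) : ℂ)) := by
        rw [← exp_add]; congr 1; push_cast; ring
      rw [e2]
      push_cast
      rw [mul_inv]
      ring
    simp_rw [e1]
    rw [integral_const_mul]
    have e3 : ∫ t : ℝ, (((Real.cosh t * Real.cosh (x - t))⁻¹ : ℝ) : ℂ) =
        ((∫ t : ℝ, (Real.cosh t * Real.cosh (x - t))⁻¹ : ℝ) : ℂ) := integral_ofReal
    rw [e3, integral_sech2 x hx, dslope_of_ne _ hx, slope_def_field,
      Real.sinh_zero, sub_zero, sub_zero, inv_div]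
    push_cast
    ring
  have h2 : Integrable (fun x : ℝ => 2 * ((((dslope Real.sinh 0 x)⁻¹ : ℝ) : ℂ) * exp (z * x))) :=
    hI.congr hae
  have h3 : Integrable (fun x : ℝ => (((dslope Real.sinh 0 x)⁻¹ : ℝ) : ℂ) * exp (z * x)) := by
    have := h2.const_mul (1 / 2 : ℂ)
    refine this.congr (ae_of_all _ fun x => ?_)
    simp only
    ring
  refine ⟨h3, ?_⟩
  rw [integral_congr_ae hae, integral_const_mul, ContinuousLinearMap.mul_apply', hv] at hV
  linear_combination hV / 2

/-- lemma job FTK -/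
theorem ftk (_h : Pool.Agent.Q76.HM.S_KAP) : Pool.Agent.Q76.HM.S_FTK := by
  intro γ hγ l hl
  have hγ' : (γ : ℂ) ≠ 0 := by exact_mod_cast hγ.ne'
  set z : ℂ := I * l / (2 * γ) with hz
  have hzre : z.re = -l.im / (2 * γ) := by
    have : z = ((1 / (2 * γ) : ℝ) : ℂ) * (I * l) := by
      rw [hz]; push_cast; ring
    rw [this, re_ofReal_mul]
    simp
    ring
  have hz1 : |z.re| < 1 := by
    rw [hzre, abs_div, abs_neg, abs_of_pos (by positivity : (0 : ℝ) < 2 * γ), div_lt_one (by positivity)]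
    linarith
  obtain ⟨hi, hv⟩ := main z hz1
  have h2 : (2 * γ : ℝ) ≠ 0 := by positivity
  have hF : ∀ τ : ℝ, (Pool.Agent.Q76.HM.kap γ τ : ℂ) * exp (I * l * τ) =
      (4 * γ / Real.pi ^ 2 : ℂ) * ((fun x : ℝ => (((dslope Real.sinh 0 x)⁻¹ : ℝ) : ℂ) *
        exp (z * x)) (2 * γ * τ)) := by
    intro τ
    simp only [Pool.Agent.Q76.HM.kap]
    have : z * ((2 * γ * τ : ℝ) : ℂ) = I * l * τ := by
      rw [hz]; push_cast; field_simp
    rw [this]
    push_cast
    ring
  simp_rw [hF]
  refine ⟨(hi.comp_mul_left' h2).const_mul _, ?_⟩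
  rw [integral_const_mul, Measure.integral_comp_mul_left
    (fun x : ℝ => (((dslope Real.sinh 0 x)⁻¹ : ℝ) : ℂ) * exp (z * x)) (2 * γ), hv,
    abs_of_pos (by positivity), real_smul]
  have hc := cos_ne z hz1
  have hw : Real.pi * z / 2 = (Real.pi * l / (4 * γ)) * I := by
    rw [hz]; field_simp; ring
  rw [hw, cos_mul_I] at hc ⊢
  rw [tanh_eq_sinh_div_cosh]
  have hp : (Real.pi : ℂ) ≠ 0 := ofReal_ne_zero.mpr Real.pi_ne_zero
  have hcs := cosh_sq (Real.pi * l / (4 * γ))
  push_cast
  field_simp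
  linear_combination (-4) * hcs

end Pool.Agent.Q58.HM
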